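import Pool.Agent.Lib.H56D.O1
import Pool.Agent.Lib.H80S.BR2
import Pool.Agent.Lib.H56M.W2

/-!
# Square integrability on the Siegel sets from square integrability on a covering set
-/

namespace Pool.Agent.Lib.H56X

open Matrix hiding J
open MeasureTheory Topology Filter
open Pool.Agent.Lib.H56.Picard hiding O Gam mem_Gam star_mem_O T_mem sg_mem
open Pool.Agent.Lib.H56.Gen
open Pool.Agent.Lib.H56M (MC wG cnt om bxi)
open scoped ENNReal

noncomputable section

variable {q : QD}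

/-- The data for one cusp. -/
def MCof (K : Cusp q) {h : ℝ} (hh : 0 < h) (h1 : h ≤ 1)
    (high : ∀ z : X, ∃ γ : Gam q, h < height (γ • z : X).1) : MC q where
  r := 1
  g := fun _ => 1
  K := K
  N := 1
  hN := le_rfl
  rat := by
    intro i k l
    rw [mat_one, Matrix.one_apply]
    split_ifs
    · simp only [Nat.cast_one, one_mul]
      exact (OO q).one_mem
    · rw [mul_zero]
      exact (OO q).zero_mem
  den := by
    intro i j γ k l
    rw [inv_one, one_mul, mul_one, Nat.cast_one, one_mul]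
    exact γ.2 k l
  tr := by
    intro i b hb
    rw [inv_one, one_mul, mul_one]
    exact b.2
  lev := by
    intro i A hA k l
    rw [inv_one, mat_one, one_mul, mul_one]
    obtain ⟨x, hx, h⟩ := hA k l
    rw [h]
    exact (OO q).mul_mem K.hp hx
  h := h
  hh := hh
  h1 := h1
  high := by
    intro z
    obtain ⟨γ, hγ⟩ := high z
    refine ⟨γ, 0, ?_⟩
    rw [inv_one, one_smul]
    exact hγ

/-- Square integrability from a covering set. -/
theorem L2_of_cover (D : MC q) (G : Subgroup (Gam q)) [G.FiniteIndex]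
    {f : ℂ × ℂ → ℂ} (hf : ContDiffOn ℝ 2 f U)
    (hinv : ∀ γ : Gam q, γ ∈ G → ∀ z ∈ U, f (act (mat γ.1) z) = f z)
    {F : Set (ℂ × ℂ)} (hF : MeasurableSet F) (hFU : ∀ z ∈ F, z ∈ U)
    (hcov : ∀ z ∈ U, ∃ γ : Gam q, γ ∈ G ∧ act (mat γ.1) z ∈ F)
    (hint : ∫⁻ z in F, ENNReal.ofReal ((height z)⁻¹ ^ 3 * Complex.normSq (f z)) < ⊤) :
    ∫⁻ z : X, wG D G z * ENNReal.ofReal (Complex.normSq (f z.1)) ∂mu ≠ ⊤ := by
  classical
  have hcountA : Countable (Gam q) := H56.Picard.countable_arith H56.Gen.finite_ball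
  have hcountG : Countable G := inferInstance
  have hUm : MeasurableSet U := H56.Picard.measurableSet_siegel
  have hcont : ContinuousOn (fun z => ENNReal.ofReal (Complex.normSq (f z))) U :=
    ENNReal.continuous_ofReal.comp_continuousOn
      (Complex.continuous_normSq.comp_continuousOn hf.continuousOn)
  have hm1 : Measurable (U.piecewise (fun z => ENNReal.ofReal (Complex.normSq (f z))) fun _ => 0) :=
    hcont.measurable_piecewise continuousOn_const hUm
  set φ : ℂ × ℂ → ℝ≥0∞ := F.indicator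
    (U.piecewise (fun z => ENNReal.ofReal (Complex.normSq (f z))) fun _ => 0) with hφ
  have hφm : Measurable φ := hm1.indicator hF
  have hφF : ∀ z ∈ F, φ z = ENNReal.ofReal (Complex.normSq (f z)) := by
    intro z hz
    have hzU : z ∈ U := hFU z hz
    rw [hφ, Set.indicator_of_mem hz, Set.piecewise_eq_of_mem _ _ _ hzU]
  have h1 : ∫⁻ z : X, φ z.1 ∂mu ≠ ⊤ := by
    rw [H56.Picard.lintegral_mu φ hφm]
    refine ne_top_of_le_ne_top hint.ne ?_
    rw [← lintegral_indicator H56.Picard.measurableSet_siegel, ← lintegral_indicator hF]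
    refine lintegral_mono fun z => ?_
    by_cases hz : z ∈ F
    · have hzU : z ∈ {z : ℂ × ℂ | 0 < H56.Picard.height z} := hFU z hz
      rw [Set.indicator_of_mem hzU, Set.indicator_of_mem hz, hφF z hz, ← ENNReal.ofReal_mul (by
          have : 0 < H56.Picard.height z := hFU z hz
          positivity)]
    · have h2 : φ z = 0 := by rw [hφ, Set.indicator_of_notMem hz]
      rw [Set.indicator_of_notMem hz]
      by_cases hz' : z ∈ {z : ℂ × ℂ | 0 < H56.Picard.height z}
      · rw [Set.indicator_of_mem hz', h2, mul_zero]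
      · rw [Set.indicator_of_notMem hz']
  have h3 := H56.Picard.unfold_lintegral (G := G)
    (H56M.measurable_wG D G) (c := 1)
    (Filter.Eventually.of_forall (H56M.sum_wG D G))
    (Φ := fun z : X => φ z.1) (hφm.comp measurable_subtype_coe)
  rw [one_mul] at h3
  rw [h3] at h1
  refine ne_top_of_le_ne_top h1 (lintegral_mono fun z => mul_le_mul' le_rfl ?_)
  obtain ⟨γ, hγ, hγF⟩ := hcov z.1 z.2
  have h6 : ENNReal.ofReal (Complex.normSq (f z.1)) = φ ((⟨γ, hγ⟩ : G) • z : X).1 := by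
    have h7 : ((⟨γ, hγ⟩ : G) • z : X).1 = act (mat γ.1) z.1 := rfl
    rw [h7, hφF _ hγF, hinv _ hγ z.1 z.2]
  rw [h6]
  exact ENNReal.le_tsum (f := fun γ : G => φ (γ • z : X).1) _

/-- High in the cusp. -/
theorem high_ne_top (D : MC q) (i : Fin D.r) (hi : D.g i = 1) (G : Subgroup (Gam q))
    [G.FiniteIndex] {f : ℂ × ℂ → ℂ} (hf : ContDiffOn ℝ 2 f U)
    (hinv : ∀ γ : Gam q, γ ∈ G → ∀ z ∈ U, f (act (mat γ.1) z) = f z)
    (hL2 : ∫⁻ z : X, wG D G z * ENNReal.ofReal (Complex.normSq (f z.1)) ∂mu ≠ ⊤) (γ : Gam q) :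
    BW (H56M.top D) D.K.P (fun s t v u => 1 *
      Complex.normSq (f (act (mat γ.1) (PsiE D.K.e1 D.K.e2 s t v u)))) ≠ ⊤ := by
  obtain ⟨κ, hκ1, hκ, hκe⟩ := H56M.cnt_high D i
  have hN : (1 : ℝ) ≤ D.N := by exact_mod_cast D.hN
  have hh := D.hh
  have hT0 : 0 < H56M.top D := by unfold H56M.top; positivity
  have hTh : D.h ≤ H56M.top D := by
    unfold H56M.top
    rw [le_div_iff₀ hh]
    have := D.h1
    nlinarith
  have hmz : Measurable fun z : X => Complex.normSq (f z.1) :=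
    (Complex.continuous_normSq.comp
      (continuousOn_iff_continuous_domRestrict.mp hf.continuousOn)).measurable
  have hψ : Measurable fun z : X => Complex.normSq (f (act (mat γ.1) z.1)) := by
    have h1 : (fun z : X => Complex.normSq (f (act (mat γ.1) z.1))) =
      (fun z : X => Complex.normSq (f z.1)) ∘ (fun z : X => γ • z) := rfl
    rw [h1]
    exact hmz.comp (measurable_const_smul γ)
  have key := lintegral_Box_weight D.K hT0 (wE := above (H56M.top D)) (w := fun _ => 1)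
    (measurable_above _) (fun _ _ => zero_le_one)
    (fun u hu => by unfold above; rw [Set.indicator_of_mem (Set.mem_Ioi.2 hu), ENNReal.ofReal_one])
    (fun u hu => by unfold above; exact Set.indicator_of_notMem (by simpa using hu) _)
    (fun z => Complex.normSq (f (act (mat γ.1) z))) hψ
  have hfin : ∫⁻ z in {z : X | z.1 ∈ D.K.Box}, above (H56M.top D) (height z.1) *
      ENNReal.ofReal (Complex.normSq (f (act (mat γ.1) z.1))) ∂mu ≠ ⊤ := by
    rw [H56M.lintegral_wG D G (φ := fun z : X => ENNReal.ofReal (Complex.normSq (f z.1)))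
      (ENNReal.measurable_ofReal.comp hmz)] at hL2
    refine ne_top_of_le_ne_top (ENNReal.mul_ne_top hκ hL2) ?_
    have mB : MeasurableSet {z : X | z.1 ∈ D.K.Box} :=
      (measurableSet_Box D.K).preimage measurable_subtype_coe
    rw [← lintegral_const_mul' _ _ hκ, ← lintegral_indicator mB]
    refine lintegral_mono fun z => ?_
    by_cases hz : z ∈ {z : X | z.1 ∈ D.K.Box}
    swap
    · rw [Set.indicator_of_notMem hz]
      exact zero_le
    rw [Set.indicator_of_mem hz]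
    by_cases hzT : H56M.top D < height z.1
    swap
    · unfold above
      rw [Set.indicator_of_notMem (by simpa using hzT), zero_mul]
      exact zero_le
    have e1 : above (H56M.top D) (height z.1) = 1 := by
      unfold above
      exact Set.indicator_of_mem (Set.mem_Ioi.2 hzT) _
    rw [e1, one_mul]
    have e2 : κ⁻¹ ≤ om D z := by
      have h1 : H56M.cnt D z = κ := by
        have := hκe z hz hzT
        rwa [hi, one_smul] at this
      unfold H56M.om
      rw [h1]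
      have h2 : 1 ≤ H56M.ind D z := by
        have h3 : bxi D i z = 1 := by
          unfold H56M.bxi
          rw [hi, inv_one, one_smul]
          have h4 : bx D.K.Box z.1 = 1 := if_pos hz
          have h5 : above D.h (height z.1) = 1 := by
            unfold above
            exact Set.indicator_of_mem (Set.mem_Ioi.2 (lt_of_le_of_lt hTh hzT)) _
          rw [h4, h5, one_mul]
        rw [← h3]
        unfold H56M.ind
        exact Finset.single_le_sum (f := fun i => bxi D i z) (fun _ _ => zero_le)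
          (Finset.mem_univ i)
      calc κ⁻¹ = 1 * κ⁻¹ := (one_mul _).symm
        _ ≤ _ := by gcongr
    have e3 : ENNReal.ofReal (Complex.normSq (f (act (mat γ.1) z.1))) ≤
        ∑' c : Gam q ⧸ G, ENNReal.ofReal
          (Complex.normSq (f ((c.out : Gam q)⁻¹ • z : X).1)) := by
      set c : Gam q ⧸ G := (QuotientGroup.mk γ⁻¹ : Gam q ⧸ G) with hc
      refine le_trans (le_of_eq ?_) (ENNReal.le_tsum c)
      have h1 : γ * c.out ∈ G := by
        have h2 : (QuotientGroup.mk γ⁻¹ : Gam q ⧸ G) = QuotientGroup.mk c.out := by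
          rw [← hc]
          exact (QuotientGroup.out_eq' c).symm
        have h3 := QuotientGroup.eq.1 h2
        rwa [inv_inv] at h3
      have h2 := hinv _ h1 ((c.out : Gam q)⁻¹ • z : X).1 ((c.out : Gam q)⁻¹ • z : X).2
      have h3 : act (mat (γ * c.out : Gam q).1) ((c.out : Gam q)⁻¹ • z : X).1 =
          act (mat γ.1) z.1 := by
        have h4 : act (mat (γ * c.out : Gam q).1) ((c.out : Gam q)⁻¹ • z : X).1 =
          ((γ * c.out) • ((c.out : Gam q)⁻¹ • z : X) : X).1 := rfl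
        have h5 : act (mat γ.1) z.1 = (γ • z : X).1 := rfl
        rw [h4, h5, smul_smul, mul_assoc, mul_inv_cancel, mul_one]
      rw [h3] at h2
      show _ = ENNReal.ofReal (Complex.normSq (f ((c.out : Gam q)⁻¹ • z : X).1))
      rw [h2]
    calc ENNReal.ofReal (Complex.normSq (f (act (mat γ.1) z.1)))
        = κ * κ⁻¹ * ENNReal.ofReal (Complex.normSq (f (act (mat γ.1) z.1))) := by
          rw [ENNReal.mul_inv_cancel (fun h => by rw [h] at hκ1; simp at hκ1) hκ, one_mul]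
      _ = κ * (κ⁻¹ * ENNReal.ofReal (Complex.normSq (f (act (mat γ.1) z.1)))) := mul_assoc _ _ _
      _ ≤ _ := by gcongr
  rw [key] at hfin
  intro hcon
  rw [hcon] at hfin
  apply hfin
  rw [ENNReal.mul_top]
  rw [Ne, ENNReal.ofReal_eq_zero, not_le]
  have := D.K.cv_pos
  linarith

/-- Bounded height. -/
theorem low_ne_top (K : Cusp q) {f : ℂ × ℂ → ℂ} (hf : ContDiffOn ℝ 2 f U) (γ : Gam q) (T : ℝ) :
    ∫⁻ u in Set.Ioc (1:ℝ) T, ∫⁻ s in Set.Icc (0:ℝ) 1, ∫⁻ t in Set.Icc (0:ℝ) 1,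
      ∫⁻ v in Set.Icc (0:ℝ) K.P, ENNReal.ofReal (u⁻¹ ^ 3 *
        Complex.normSq (f (act (mat γ.1) (PsiE K.e1 K.e2 s t v u)))) ≠ ⊤ := by
  set C : Set (ℝ × ℝ × ℝ × ℝ) := Set.Icc 0 1 ×ˢ Set.Icc 0 1 ×ˢ Set.Icc 0 K.P ×ˢ Set.Icc 1 T with hC
  have hCc : IsCompact C :=
    isCompact_Icc.prod (isCompact_Icc.prod (isCompact_Icc.prod isCompact_Icc))
  have hcont : ContinuousOn (fun p : ℝ × ℝ × ℝ × ℝ => Complex.normSq
      (f (act (mat γ.1) (PsiE K.e1 K.e2 p.1 p.2.1 p.2.2.1 p.2.2.2)))) C := by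
    refine Complex.continuous_normSq.comp_continuousOn ?_
    intro p hp
    have hz : PsiE K.e1 K.e2 p.1 p.2.1 p.2.2.1 p.2.2.2 ∈ U := by
      show 0 < height _
      rw [ht_PsiE]
      have := hp.2.2.2.1
      linarith
    have h1 : ContinuousAt f (act (mat γ.1) (PsiE K.e1 K.e2 p.1 p.2.1 p.2.2.1 p.2.2.2)) :=
      (hf.continuousOn).continuousAt (isOpen_U.mem_nhds (act_mem_U γ.1 hz))
    have h2 : ContinuousAt (act (mat γ.1)) (PsiE K.e1 K.e2 p.1 p.2.1 p.2.2.1 p.2.2.2) :=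
      (contDiffAt_act γ.1 hz).continuousAt
    have h3 : ContinuousAt (fun p : ℝ × ℝ × ℝ × ℝ => PsiE K.e1 K.e2 p.1 p.2.1 p.2.2.1 p.2.2.2) p :=
      (continuous_PsiE4 _ _).continuousAt
    have h4 : ContinuousAt (f ∘ act (mat γ.1)) (PsiE K.e1 K.e2 p.1 p.2.1 p.2.2.1 p.2.2.2) :=
      h1.comp h2
    have h5 : ContinuousAt ((f ∘ act (mat γ.1)) ∘
      (fun p : ℝ × ℝ × ℝ × ℝ => PsiE K.e1 K.e2 p.1 p.2.1 p.2.2.1 p.2.2.2)) p :=
      ContinuousAt.comp (f := fun p : ℝ × ℝ × ℝ × ℝ => PsiE K.e1 K.e2 p.1 p.2.1 p.2.2.1 p.2.2.2)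
        h4 h3
    exact h5.continuousWithinAt
  obtain ⟨M, hM⟩ := hCc.bddAbove_image hcont
  have hM' : ∀ u ∈ Set.Ioc (1:ℝ) T, ∀ s ∈ Set.Icc (0:ℝ) 1, ∀ t ∈ Set.Icc (0:ℝ) 1,
      ∀ v ∈ Set.Icc (0:ℝ) K.P, ENNReal.ofReal (u⁻¹ ^ 3 *
        Complex.normSq (f (act (mat γ.1) (PsiE K.e1 K.e2 s t v u)))) ≤ ENNReal.ofReal M := by
    intro u hu s hs t ht v hv
    refine ENNReal.ofReal_le_ofReal ?_
    have h1 : Complex.normSq (f (act (mat γ.1) (PsiE K.e1 K.e2 s t v u))) ≤ M :=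
      hM ⟨(s, t, v, u), ⟨hs, ht, hv, hu.1.le, hu.2⟩, rfl⟩
    have h2 : u⁻¹ ^ 3 ≤ 1 := pow_le_one₀ (inv_nonneg.2 (by linarith [hu.1])) (inv_le_one_of_one_le₀ hu.1.le)
    have h3 := Complex.normSq_nonneg (f (act (mat γ.1) (PsiE K.e1 K.e2 s t v u)))
    calc u⁻¹ ^ 3 * Complex.normSq (f (act (mat γ.1) (PsiE K.e1 K.e2 s t v u)))
        ≤ 1 * Complex.normSq (f (act (mat γ.1) (PsiE K.e1 K.e2 s t v u))) := by gcongr
      _ ≤ M := by rw [one_mul]; exact h1
  have hle : ∫⁻ u in Set.Ioc (1:ℝ) T, ∫⁻ s in Set.Icc (0:ℝ) 1, ∫⁻ t in Set.Icc (0:ℝ) 1,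
      ∫⁻ v in Set.Icc (0:ℝ) K.P, ENNReal.ofReal (u⁻¹ ^ 3 *
        Complex.normSq (f (act (mat γ.1) (PsiE K.e1 K.e2 s t v u)))) ≤
      ∫⁻ u in Set.Ioc (1:ℝ) T, ∫⁻ s in Set.Icc (0:ℝ) 1, ∫⁻ t in Set.Icc (0:ℝ) 1,
      ∫⁻ v in Set.Icc (0:ℝ) K.P, ENNReal.ofReal M := by
    refine setLIntegral_mono' measurableSet_Ioc fun u hu => ?_
    refine setLIntegral_mono' measurableSet_Icc fun s hs => ?_
    refine setLIntegral_mono' measurableSet_Icc fun t ht => ?_
    exact setLIntegral_mono' measurableSet_Icc fun v hv => hM' u hu s hs t ht v hv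
  refine ne_top_of_le_ne_top ?_ hle
  simp only [lintegral_const, Measure.restrict_apply MeasurableSet.univ, Set.univ_inter,
    Real.volume_Icc, Real.volume_Ioc]
  exact ENNReal.mul_ne_top (ENNReal.mul_ne_top (ENNReal.mul_ne_top (ENNReal.mul_ne_top
    ENNReal.ofReal_ne_top ENNReal.ofReal_ne_top) ENNReal.ofReal_ne_top) ENNReal.ofReal_ne_top)
    ENNReal.ofReal_ne_top

/-- Square integrability on the Siegel sets. -/
theorem box_ne_top (D : MC q) (i : Fin D.r) (hi : D.g i = 1) (G : Subgroup (Gam q))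
    [G.FiniteIndex] {f : ℂ × ℂ → ℂ} (hf : ContDiffOn ℝ 2 f U)
    (hinv : ∀ γ : Gam q, γ ∈ G → ∀ z ∈ U, f (act (mat γ.1) z) = f z)
    (hL2 : ∫⁻ z : X, wG D G z * ENNReal.ofReal (Complex.normSq (f z.1)) ∂mu ≠ ⊤) (γ : Gam q) :
    ∫⁻ u in Set.Ioi (1:ℝ), ∫⁻ s in Set.Icc (0:ℝ) 1, ∫⁻ t in Set.Icc (0:ℝ) 1,
      ∫⁻ v in Set.Icc (0:ℝ) D.K.P, ENNReal.ofReal (u⁻¹ ^ 3 *
        Complex.normSq (f (act (mat γ.1) (PsiE D.K.e1 D.K.e2 s t v u)))) ≠ ⊤ := by
  have h1 := high_ne_top D i hi G hf hinv hL2 γ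
  have h2 := low_ne_top D.K hf γ (H56M.top D)
  simp only [one_mul] at h1
  unfold BW at h1
  have hT1 : 1 ≤ H56M.top D := by
    have hN : (1 : ℝ) ≤ D.N := by exact_mod_cast D.hN
    have hh := D.hh
    unfold H56M.top
    rw [le_div_iff₀ hh]
    have := D.h1
    nlinarith
  rw [← Set.Ioc_union_Ioi_eq_Ioi hT1]
  exact ne_top_of_le_ne_top (ENNReal.add_ne_top.2 ⟨h2, h1⟩) (lintegral_union_le _ _ _)

end

end Pool.Agent.Lib.H56X
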