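import Pool.Agent.Lib.H56X.Stm
import Pool.Agent.Lib.H56X.L2

/-!
# Eigenvalue bounds in the form of the statement
-/

namespace Pool.Agent.Lib.H56X

open Matrix hiding J
open MeasureTheory
open Pool.Agent.Lib.H56.Picard (SU21 mat X mu mkSU U mat_mul)
open Pool.Agent.Lib.H56.Gen
open Pool.Agent.Lib.H80S hiding J
open scoped ENNReal

noncomputable section

variable {t n : ℤ}

theorem mem_GammaP (h : t ^ 2 < 4 * n) {p : ℂ} {γ : Gam (qq t n h)}
    (hγ : γ ∈ GamN (qq t n h) p) : mat γ.1 ∈ GammaP t n p := by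
  refine ⟨mat_mem_SU γ.1, fun i j => (mem_Ord h).2 (γ.2 i j), fun i j => ?_⟩
  obtain ⟨x, hx, hxe⟩ := hγ i j
  exact ⟨x, (mem_Ord h).2 hx, hxe⟩

theorem of_GammaP (h : t ^ 2 < 4 * n) {p : ℂ} {g : SU21} (hg : mat g ∈ GammaP t n p) :
    ∃ γ : Gam (qq t n h), γ ∈ GamN (qq t n h) p ∧ γ.1 = g := by
  obtain ⟨-, h1, h2⟩ := hg
  refine ⟨⟨g, fun i j => (mem_Ord h).1 (h1 i j)⟩, fun i j => ?_, rfl⟩
  obtain ⟨x, hx, hxe⟩ := h2 i j
  exact ⟨x, (mem_Ord h).1 hx, hxe⟩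

/-- Right translation by a translation of the lattice. -/
theorem per {q : QD} {p : ℂ} {f : ℂ × ℂ → ℂ} (hp : p ∈ OO q)
    (hinv : ∀ γ : Gam q, γ ∈ GamN q p → ∀ z ∈ U, f (H56.Picard.act (mat γ.1) z) = f z)
    (γ : Gam q) {l w : ℂ} (hr : 2 * w.re = -Complex.normSq l) (hl : l ∈ PO q p)
    (hsl : star l ∈ PO q p) (hw : w ∈ PO q p) {z : ℂ × ℂ} (hz : z ∈ U) :
    f (H56.Picard.act (mat γ.1 * H56.Picard.TM l w) z) = f (H56.Picard.act (mat γ.1) z) := by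
  set b : Gam q := ⟨H56.Picard.T l w hr, T_mem hr (PO_le hp hl) (PO_le hp hw)⟩ with hb
  have hbm : b ∈ GamN q p := T_mem_GamN hp hr hl hsl hw
  have h1 : γ * b * γ⁻¹ ∈ GamN q p := GamN_normal.conj_mem b hbm γ
  have h2 := hinv _ h1 (H56.Picard.act (mat γ.1) z) (H56.Picard.act_mem_U γ.1 hz)
  rw [← h2, H56.Picard.act_act _ _ hz]
  congr 2
  rw [← H56.Picard.mat_T hr, ← mat_mul]
  congr 1
  have h3 : (γ * b * γ⁻¹ : Gam q).1 = γ.1 * b.1 * γ.1⁻¹ := rfl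
  rw [h3, inv_mul_cancel_right]

/-- Bounds of the library in the form of the statement. -/
theorem of_gap (h : t ^ 2 < 4 * n) (D : LD (qq t n h)) {B : ℝ}
    (hB : GapAt (qq t n h) D.K B) {ht : ℝ} (hh : 0 < ht) (h1 : ht ≤ 1)
    (high : ∀ z : X, ∃ γ : Gam (qq t n h), ht < H56.Picard.height (γ • z : X).1)
    {f : ℂ × ℂ → ℂ} {lam : ℂ} (hf : AutFormP t n D.K.p f lam) (hcusp : CuspForm t n f)
    (hne : ∃ z : ℂ × ℂ, 0 < height z ∧ f z ≠ 0) : lam.im = 0 ∧ B ≤ lam.re := by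
  have hinv : ∀ γ : Gam (qq t n h), γ ∈ GamN (qq t n h) D.K.p → ∀ z ∈ U,
      f (H56.Picard.act (mat γ.1) z) = f z := by
    intro γ hγ z hz
    rw [← act_eq]
    exact hf.inv _ (mem_GammaP h hγ) z hz
  refine hB f lam hf.smooth hinv hf.eig hne ?_ ?_
  · intro γ u hu
    have h0 : (⟨0, D.K.P / 2⟩ : ℂ) ∈ PO (qq t n h) D.K.p := D.K.hw0
    have h2 := hcusp (mat γ.1) (mat_mem_SU γ.1)
      ⟨1, le_rfl, fun i j => by rw [Nat.cast_one, one_mul]; exact (mem_Ord h).2 (γ.2 i j)⟩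
      D.K.e1 D.K.e2 D.K.w1 D.K.w2 D.K.P D.K.r1 D.K.r2 D.K.hP D.K.cov (fun z hz => ⟨?_, ?_, ?_⟩) u hu
    · refine Eq.trans ?_ h2
      simp only [act_eq, point_eq]
    · rw [act_eq, act_eq]
      exact per D.K.hp hinv γ D.K.r1 D.K.he1 D.K.hs1 D.K.hw1 hz
    · rw [act_eq, act_eq]
      exact per D.K.hp hinv γ D.K.r2 D.K.he2 D.K.hs2 D.K.hw2 hz
    · rw [act_eq, act_eq]
      exact per D.K.hp hinv γ (by simp) (PO _ _).zero_mem
        (by rw [star_zero]; exact (PO _ _).zero_mem) h0 hz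
  · have hfi : (GamN (qq t n h) D.K.p).FiniteIndex := GamN_finiteIndex D.K.hp D.K.hp0
    obtain ⟨F, hF, hFU, hcov, hint⟩ := hf.L2
    have h2 := L2_of_cover (MCof D.K hh h1 high) (GamN (qq t n h) D.K.p) hf.smooth hinv hF hFU
      (fun z hz => by
        obtain ⟨g, hg, hgF⟩ := hcov z hz
        obtain ⟨g', rfl⟩ := exists_SU21 hg.1
        obtain ⟨γ, hγ, rfl⟩ := of_GammaP h hg
        refine ⟨γ, hγ, ?_⟩
        rw [← act_eq]
        exact hgF) hint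
    exact fun γ => box_ne_top (MCof D.K hh h1 high) (⟨0, Nat.one_pos⟩ : Fin 1) rfl (GamN (qq t n h) D.K.p) hf.smooth hinv
      h2 γ

/-- The six cases. -/
theorem exact {t n : ℤ} {p : ℂ} {B : ℝ}
    (h : (t = 1 ∧ n = 1 ∧ (p = 3 ∨ p = ⟨0, 2 * √3⟩ ∨ p = 4) ∧ B = 25 / 24) ∨
      (t = 0 ∧ n = 1 ∧ p = 2 + 2 * Complex.I ∧ B = 231 / 200) ∨
      (t = 1 ∧ n = 2 ∧ p = 1 ∧ B = 5 / 4) ∨ (t = 0 ∧ n = 2 ∧ p = 1 ∧ B = 21 / 20))
    {f : ℂ × ℂ → ℂ} {lam : ℂ} (hf : AutFormP t n p f lam) (hcusp : CuspForm t n f)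
    (hne : ∃ z : ℂ × ℂ, 0 < height z ∧ f z ≠ 0) : lam.im = 0 ∧ B ≤ lam.re := by
  rcases h with ⟨rfl, rfl, hp, rfl⟩ | ⟨rfl, rfl, rfl, rfl⟩ | ⟨rfl, rfl, rfl, rfl⟩ |
    ⟨rfl, rfl, rfl, rfl⟩
  · have hq : (1 : ℤ) ^ 2 < 4 * 1 := by norm_num
    rcases hp with rfl | rfl | rfl
    · have e1 : dW3.K.p = 3 := by
        change el qW 3 0 = 3
        rw [el_int]
        norm_num
      rw [← e1] at hf
      exact of_gap hq dW3 D3.gapW3 (by norm_num) (by norm_num) H56D.highW hf hcusp hne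
    · have e1 : dW12.K.p = ⟨0, 2 * √3⟩ := by
        change el qW (-2) 4 = _
        apply Complex.ext
        · rw [el_re]
          simp [qW]
          norm_num
        · rw [el_im, sd_qW]
          simp
          ring
      rw [← e1] at hf
      exact of_gap hq dW12 D3.gapW12 (by norm_num) (by norm_num) H56D.highW hf hcusp hne
    · have e1 : dW4.K.p = 4 := by
        change el qW 4 0 = 4
        rw [el_int]
        norm_num
      rw [← e1] at hf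
      exact of_gap hq dW4 D3.gapW4 (by norm_num) (by norm_num) H56D.highW hf hcusp hne
  · have hq : (0 : ℤ) ^ 2 < 4 * 1 := by norm_num
    have e1 : dI8.K.p = 2 + 2 * Complex.I := by
      change el qI 2 2 = _
      apply Complex.ext
      · simp [el, qI]
      · simp [el, sd_qI]
    rw [← e1] at hf
    exact of_gap hq dI8 D4.gapI8 (by norm_num) (by norm_num) H56D.highI hf hcusp hne
  · have hq : (1 : ℤ) ^ 2 < 4 * 2 := by norm_num
    have e1 : d7.K.p = 1 := by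
      change el q7 1 0 = _
      exact el_one
    rw [← e1] at hf
    exact of_gap hq d7 D7.gap7 (by norm_num) (by norm_num) H56D.high7 hf hcusp hne
  · have hq : (0 : ℤ) ^ 2 < 4 * 2 := by norm_num
    have e1 : d8.K.p = 1 := by
      change el q8 1 0 = _
      exact el_one
    rw [← e1] at hf
    exact of_gap hq d8 D8.gap8 (by norm_num) (by norm_num) H56D.high8 hf hcusp hne

end

end Pool.Agent.Lib.H56X
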