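import Pool.Agent.Lib.H80S.Stm

/-!
# Automorphic functions of level `p`, `p` an element of the order
-/

namespace Pool.Agent.Lib.H56X

open MeasureTheory Matrix
open Pool.Agent.Lib.H80S (Mat Ord SU height act laplacian)

noncomputable section

/-- The principal congruence subgroup `Γ(p)` of `SU(2,1; ℤ[ω])`, for `p` in `ℤ[ω]`. -/
def GammaP (t n : ℤ) (p : ℂ) : Set Mat :=
  {g | g ∈ SU ∧ (∀ i j, g i j ∈ Ord t n) ∧ ∀ i j, ∃ x ∈ Ord t n, g i j - (1 : Mat) i j = p * x}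

/-- Eigenfunctions of the Laplacian in `L²(Γ(p)\X)`: `|f|²` is integrable over some measurable set whose
`Γ(p)`-translates cover `X`; the invariant measure is `u⁻³` times Lebesgue measure. -/
structure AutFormP (t n : ℤ) (p : ℂ) (f : ℂ × ℂ → ℂ) (lam : ℂ) : Prop where
  smooth : ContDiffOn ℝ 2 f {z | 0 < height z}
  inv : ∀ γ ∈ GammaP t n p, ∀ z, 0 < height z → f (act γ z) = f z
  eig : ∀ z, 0 < height z → laplacian f z = -(lam * f z)
  L2 : ∃ F : Set (ℂ × ℂ), MeasurableSet F ∧ (∀ z ∈ F, 0 < height z) ∧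
    (∀ z, 0 < height z → ∃ γ ∈ GammaP t n p, act γ z ∈ F) ∧
    ∫⁻ z in F, ENNReal.ofReal ((height z)⁻¹ ^ 3 * Complex.normSq (f z)) < ⊤

end

end Pool.Agent.Lib.H56X
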